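import Pool.Agent.Results.MP_c7a479_co.VariationalCubeExistence

set_option autoImplicit false

/-!
# MP_2d9e0f_co: deleting a coordinate from an all-or-nothing transform

A `(1, 3, 6)`-all-or-nothing transform exists and a `(1, 2, 6)`-all-or-nothing transform does not.
The parameters of `(1, s, v)`-all-or-nothing transforms are determined, and for `t = 1` and for
`t = s - 2` the deletion property fails only at `(t, s, v) = (1, 3, 6)`.
-/

namespace Pool.Agent.Results.MP_2d9e0f_co.DeletionFailsH53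

open Function

/-- `φ : X^s → X^s` is a `(t, s, |X|)`-all-or-nothing transform: `φ` is a bijection, and for all
sets `I`, `J` of `t` coordinates the map `x ↦ (x_I, φ(x)_{[s] ∖ J})` is a bijection onto
`X^I × X^{[s] ∖ J}`. -/
def IsAONT (t s : ℕ) {X : Type} (φ : (Fin s → X) → (Fin s → X)) : Prop :=
  Bijective φ ∧
    ∀ I J : Finset (Fin s), I.card = t → J.card = t →
      Bijective (fun x : Fin s → X =>
        ((fun i : {i // i ∈ I} => x i, fun j : {j // j ∉ J} => φ x j) :
          ({i // i ∈ I} → X) × ({j // j ∉ J} → X)))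

/-- a `(t, s, v)`-all-or-nothing transform exists (over some alphabet with `v` letters) -/
def HasAONT (t s v : ℕ) : Prop :=
  ∃ (X : Type) (_ : Fintype X), Fintype.card X = v ∧ ∃ φ : (Fin s → X) → (Fin s → X), IsAONT t s φ

open Pool.Agent.H430R2.PermCubes

/-- the inverse of a `(1, s, v)`-transform is a variational cube -/
theorem cube_of_aont {s v : ℕ} (h : HasAONT 1 s v) :
    ∃ C : Fin s → (Fin s → Fin v) → Fin v, IsVariationalSet s v s C := by
  obtain ⟨X, hX, hcard, φ, hφ, hA⟩ := h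
  subst hcard
  let e : X ≃ Fin (Fintype.card X) := Fintype.equivFin X
  let F : (Fin s → X) ≃ (Fin s → X) := Equiv.ofBijective φ hφ
  have hF : ∀ x, φ (F.symm x) = x := fun x => F.apply_symm_apply x
  refine ⟨fun i y => e (F.symm (fun k => e.symm (y k)) i), ?_, ?_⟩
  · intro i j y
    rw [← Finite.injective_iff_bijective]
    intro t t' htt
    have h1 := e.injective htt
    have h2 := (hA {i} {j} (Finset.card_singleton _) (Finset.card_singleton _)).1
    have h3 : F.symm (fun k => e.symm (update y j t k)) = F.symm (fun k => e.symm (update y j t' k)) := by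
      apply h2
      simp only [Prod.mk.injEq]
      constructor
      · funext ⟨k, hk⟩
        rw [Finset.mem_singleton] at hk
        subst hk
        exact h1
      · funext ⟨k, hk⟩
        rw [Finset.mem_singleton] at hk
        simp only [hF]
        rw [update_of_ne hk, update_of_ne hk]
    have h4 := congrFun (F.symm.injective h3) j
    have h5 := e.symm.injective h4
    simpa using h5
  · intro g hg
    rw [← Finite.injective_iff_bijective]
    intro y y' hyy
    have hs := Finite.injective_iff_surjective.1 hg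
    have h1 : F.symm (fun k => e.symm (y k)) = F.symm (fun k => e.symm (y' k)) := by
      funext k
      obtain ⟨i, rfl⟩ := hs k
      exact e.injective (congrFun hyy i)
    funext k
    exact e.symm.injective (congrFun (F.symm.injective h1) k)

/-- the inverse of a variational cube is a `(1, s, v)`-transform -/
theorem aont_of_cube {s v : ℕ}
    (h : ∃ C : Fin s → (Fin s → Fin v) → Fin v, IsVariationalSet s v s C) : HasAONT 1 s v := by
  obtain ⟨C, hC1, hC2⟩ := h
  let Ψ : (Fin s → Fin v) ≃ (Fin s → Fin v) :=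
    Equiv.ofBijective (fun y i => C i y) (hC2 id injective_id)
  have hΨ : ∀ y i, Ψ y i = C i y := fun y i => rfl
  refine ⟨Fin v, inferInstance, Fintype.card_fin v, fun x => Ψ.symm x, Ψ.symm.bijective, ?_⟩
  intro I J hI hJ
  obtain ⟨i, rfl⟩ := Finset.card_eq_one.1 hI
  obtain ⟨j, rfl⟩ := Finset.card_eq_one.1 hJ
  constructor
  · intro x x' hxx
    simp only [Prod.mk.injEq] at hxx
    obtain ⟨h1, h2⟩ := hxx
    have h1' : x i = x' i := congrFun h1 ⟨i, Finset.mem_singleton_self i⟩
    have h2' : ∀ k, k ≠ j → Ψ.symm x k = Ψ.symm x' k := fun k hk =>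
      congrFun h2 ⟨k, by simpa using hk⟩
    have h3 : Ψ.symm x' = update (Ψ.symm x) j (Ψ.symm x' j) := by
      funext k
      by_cases hk : k = j
      · subst hk; simp
      · rw [update_of_ne hk, h2' k hk]
    have h4 : Ψ.symm x = update (Ψ.symm x) j (Ψ.symm x j) := by simp
    have h5 : Ψ.symm x j = Ψ.symm x' j := by
      apply (hC1 i j (Ψ.symm x)).1
      show C i (update (Ψ.symm x) j (Ψ.symm x j)) = C i (update (Ψ.symm x) j (Ψ.symm x' j))
      rw [← h3, ← h4, ← hΨ, ← hΨ, Equiv.apply_symm_apply, Equiv.apply_symm_apply, h1']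
    have h6 : Ψ.symm x = Ψ.symm x' := by rw [h3, ← h5, ← h4]
    exact Ψ.symm.injective h6
  · rintro ⟨a, z⟩
    let y : Fin s → Fin v := fun k => if hk : k ∉ ({j} : Finset (Fin s)) then z ⟨k, hk⟩ else
      a ⟨i, Finset.mem_singleton_self i⟩
    obtain ⟨t, ht⟩ := (hC1 i j y).2 (a ⟨i, Finset.mem_singleton_self i⟩)
    refine ⟨Ψ (update y j t), ?_⟩
    simp only [Prod.mk.injEq]
    constructor
    · funext ⟨k, hk⟩
      have hk' := Finset.mem_singleton.1 hk
      subst hk'
      exact ht
    · funext ⟨k, hk⟩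
      have hk' : k ≠ j := by simpa using hk
      simp only [Equiv.symm_apply_apply]
      rw [update_of_ne hk']
      simp only [y]
      rw [dif_pos hk]

theorem hasAONT_one_iff {s v : ℕ} (hs : 2 ≤ s) (hv : 2 ≤ v) :
    HasAONT 1 s v ↔ v ≠ 2 ∧ ¬ (s = 2 ∧ v = 6) := by
  rw [← Pool.Agent.Results.MP_c7a479_co.VariationalCubeExistence.result.2.2.1 s v hs hv]
  exact ⟨cube_of_aont, aont_of_cube⟩

/-- over an alphabet with one letter every map is a transform -/
theorem hasAONT_unique (t s : ℕ) : HasAONT t s 1 := by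
  refine ⟨Unit, inferInstance, rfl, id, bijective_id, ?_⟩
  intro I J _ _
  constructor
  · intro x y _
    exact Subsingleton.elim _ _
  · intro z
    exact ⟨fun _ => (), Subsingleton.elim _ _⟩

/-- every bijection is an `(s, s, v)`-transform -/
theorem hasAONT_self (s v : ℕ) : HasAONT s s v := by
  refine ⟨Fin v, inferInstance, Fintype.card_fin v, id, bijective_id, ?_⟩
  intro I J hI hJ
  have hI' : I = Finset.univ := by
    apply Finset.eq_univ_of_card
    rw [hI, Fintype.card_fin]
  have hJ' : J = Finset.univ := by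
    apply Finset.eq_univ_of_card
    rw [hJ, Fintype.card_fin]
  subst hI' hJ'
  constructor
  · intro x y hxy
    simp only [Prod.mk.injEq] at hxy
    funext i
    exact congrFun hxy.1 ⟨i, Finset.mem_univ i⟩
  · rintro ⟨a, b⟩
    refine ⟨fun i => a ⟨i, Finset.mem_univ i⟩, Prod.ext rfl ?_⟩
    funext ⟨k, hk⟩
    exact absurd (Finset.mem_univ k) hk

/-- complementary restriction -/
theorem dual_aux {s t : ℕ} {X : Type} {φ : (Fin s → X) → (Fin s → X)} (h : IsAONT t s φ)
    (hts : t ≤ s) : ∃ ψ : (Fin s → X) → (Fin s → X), IsAONT (s - t) s ψ := by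
  obtain ⟨hφ, hA⟩ := h
  let F : (Fin s → X) ≃ (Fin s → X) := Equiv.ofBijective φ hφ
  have hF : ∀ x, φ (F.symm x) = x := fun x => F.apply_symm_apply x
  have hF' : ∀ x, F.symm (φ x) = x := fun x => F.symm_apply_apply x
  refine ⟨fun y => F.symm y, F.symm.bijective, ?_⟩
  intro I J hI hJ
  have hcI : Iᶜ.card = t := by rw [Finset.card_compl, Fintype.card_fin, hI]; omega
  have hcJ : Jᶜ.card = t := by rw [Finset.card_compl, Fintype.card_fin, hJ]; omega
  have hb := hA Jᶜ Iᶜ hcJ hcI
  constructor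
  · intro y y' hyy
    simp only [Prod.mk.injEq] at hyy
    have : F.symm y = F.symm y' := by
      apply hb.1
      simp only [Prod.mk.injEq, hF]
      constructor
      · funext ⟨k, hk⟩
        exact congrFun hyy.2 ⟨k, by simpa using hk⟩
      · funext ⟨k, hk⟩
        exact congrFun hyy.1 ⟨k, by simpa using hk⟩
    exact F.symm.injective this
  · rintro ⟨a, z⟩
    obtain ⟨x, hx⟩ := hb.2 (fun k => z ⟨k.1, Finset.mem_compl.1 k.2⟩,
      fun k => a ⟨k.1, by
        have := k.2
        rwa [Finset.mem_compl, not_not] at this⟩)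
    simp only [Prod.mk.injEq] at hx
    refine ⟨φ x, ?_⟩
    simp only [Prod.mk.injEq, hF']
    constructor
    · funext ⟨k, hk⟩
      exact congrFun hx.2 ⟨k, by simpa using hk⟩
    · funext ⟨k, hk⟩
      exact congrFun hx.1 ⟨k, by simpa using hk⟩

/-- duality: the inverse of a `(t, s, v)`-transform is an `(s - t, s, v)`-transform -/
theorem dual {s t v : ℕ} (hts : t ≤ s) : HasAONT t s v ↔ HasAONT (s - t) s v := by
  constructor
  · rintro ⟨X, hX, hc, φ, hφ⟩
    exact ⟨X, hX, hc, dual_aux hφ hts⟩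
  · rintro ⟨X, hX, hc, φ, hφ⟩
    have := dual_aux hφ (Nat.sub_le s t)
    rw [Nat.sub_sub_self hts] at this
    exact ⟨X, hX, hc, this⟩

/-- no `(2, s, 2)`-transform exists for `s ≥ 4` -/
theorem no_two {s : ℕ} (hs : 4 ≤ s) : ¬ HasAONT 2 s 2 := by
  rintro ⟨X, hX, hc, φ, hφ, hA⟩
  classical
  let F : (Fin s → X) ≃ (Fin s → X) := Equiv.ofBijective φ hφ
  have hF : ∀ x, φ (F.symm x) = x := fun x => F.apply_symm_apply x
  -- two letters
  obtain ⟨a, b, hab, hall⟩ : ∃ a b : X, a ≠ b ∧ ∀ x, x = a ∨ x = b := by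
    rw [← Nat.card_eq_fintype_card] at hc
    obtain ⟨a, b, hab, hu⟩ := Nat.card_eq_two_iff.1 hc
    refine ⟨a, b, hab, fun x => ?_⟩
    have : x ∈ ({a, b} : Set X) := by rw [hu]; trivial
    simpa using this
  let c0 : Fin s := ⟨0, by omega⟩
  let c1 : Fin s := ⟨1, by omega⟩
  let c2 : Fin s := ⟨2, by omega⟩
  let c3 : Fin s := ⟨3, by omega⟩
  have h01 : c0 ≠ c1 := by simp [c0, c1]
  have h02 : c0 ≠ c2 := by simp [c0, c2]
  have h03 : c0 ≠ c3 := by simp [c0, c3]
  have h12 : c1 ≠ c2 := by simp [c1, c2]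
  have h13 : c1 ≠ c3 := by simp [c1, c3]
  have h23 : c2 ≠ c3 := by simp [c2, c3]
  -- three outputs that agree off the coordinates `c0`, `c1`
  let y0 : Fin s → X := fun _ => a
  let y1 : Fin s → X := update (fun _ => a) c0 b
  let y2 : Fin s → X := update (fun _ => a) c1 b
  have key : ∀ y y' : Fin s → X, y ≠ y' → (∀ k, k ≠ c0 → k ≠ c1 → y k = y' k) →
      ∀ i j : Fin s, i ≠ j → ¬ (F.symm y i = F.symm y' i ∧ F.symm y j = F.symm y' j) := by
    intro y y' hyy hoff i j hij hx
    apply hyy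
    apply F.symm.injective
    apply (hA {i, j} {c0, c1} (Finset.card_pair hij) (Finset.card_pair h01)).1
    simp only [Prod.mk.injEq, hF]
    constructor
    · funext ⟨k, hk⟩
      rw [Finset.mem_insert, Finset.mem_singleton] at hk
      rcases hk with rfl | rfl
      · exact hx.1
      · exact hx.2
    · funext ⟨k, hk⟩
      rw [Finset.mem_insert, Finset.mem_singleton, not_or] at hk
      exact hoff k hk.1 hk.2
  have n01 : y0 ≠ y1 := by
    intro h
    have := congrFun h c0
    simp only [y0, y1, update_self] at this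
    exact hab this
  have n02 : y0 ≠ y2 := by
    intro h
    have := congrFun h c1
    simp only [y0, y2, update_self] at this
    exact hab this
  have n12 : y1 ≠ y2 := by
    intro h
    have := congrFun h c0
    simp only [y1, y2, update_self, update_of_ne h01] at this
    exact hab this.symm
  have o01 : ∀ k, k ≠ c0 → k ≠ c1 → y0 k = y1 k := by
    intro k hk0 hk1
    simp only [y0, y1, update_of_ne hk0]
  have o02 : ∀ k, k ≠ c0 → k ≠ c1 → y0 k = y2 k := by
    intro k hk0 hk1
    simp only [y0, y2, update_of_ne hk1]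
  have o12 : ∀ k, k ≠ c0 → k ≠ c1 → y1 k = y2 k := by
    intro k hk0 hk1
    simp only [y1, y2, update_of_ne hk1, update_of_ne hk0]
  have k01 := key y0 y1 n01 o01
  have k02 := key y0 y2 n02 o02
  have k12 := key y1 y2 n12 o12
  -- among three letters two agree
  have pig : ∀ k : Fin s, F.symm y0 k = F.symm y1 k ∨ F.symm y0 k = F.symm y2 k ∨
      F.symm y1 k = F.symm y2 k := by
    intro k
    rcases hall (F.symm y0 k) with h0 | h0 <;> rcases hall (F.symm y1 k) with h1 | h1 <;>
      rcases hall (F.symm y2 k) with h2 | h2 <;> simp [h0, h1, h2]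
  have p0 := pig c0
  have p1 := pig c1
  have p2 := pig c2
  have p3 := pig c3
  have a1 := k01 c0 c1 h01
  have a2 := k01 c0 c2 h02
  have a3 := k01 c0 c3 h03
  have a4 := k01 c1 c2 h12
  have a5 := k01 c1 c3 h13
  have a6 := k01 c2 c3 h23
  have b1 := k02 c0 c1 h01
  have b2 := k02 c0 c2 h02
  have b3 := k02 c0 c3 h03
  have b4 := k02 c1 c2 h12
  have b5 := k02 c1 c3 h13
  have b6 := k02 c2 c3 h23
  have d1 := k12 c0 c1 h01
  have d2 := k12 c0 c2 h02
  have d3 := k12 c0 c3 h03
  have d4 := k12 c1 c2 h12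
  have d5 := k12 c1 c3 h13
  have d6 := k12 c2 c3 h23
  clear_value y0 y1 y2
  clear pig key hall hA k01 k02 k12 o01 o02 o12 n01 n02 n12
  rcases p0 with p0 | p0 | p0 <;> rcases p1 with p1 | p1 | p1 <;>
    rcases p2 with p2 | p2 | p2 <;> rcases p3 with p3 | p3 | p3 <;>
    first
    | exact a1 ⟨p0, p1⟩ | exact a2 ⟨p0, p2⟩ | exact a3 ⟨p0, p3⟩
    | exact a4 ⟨p1, p2⟩ | exact a5 ⟨p1, p3⟩ | exact a6 ⟨p2, p3⟩
    | exact b1 ⟨p0, p1⟩ | exact b2 ⟨p0, p2⟩ | exact b3 ⟨p0, p3⟩
    | exact b4 ⟨p1, p2⟩ | exact b5 ⟨p1, p3⟩ | exact b6 ⟨p2, p3⟩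
    | exact d1 ⟨p0, p1⟩ | exact d2 ⟨p0, p2⟩ | exact d3 ⟨p0, p3⟩
    | exact d4 ⟨p1, p2⟩ | exact d5 ⟨p1, p3⟩ | exact d6 ⟨p2, p3⟩

theorem result :
    -- a transform with three coordinates and six letters exists, with two coordinates it does not
    (HasAONT 1 3 6 ∧ ¬ HasAONT 1 2 6) ∧
    -- the deletion property fails
    (¬ ∀ t s v : ℕ, 1 ≤ v → 1 ≤ t → t ≤ s - 1 → HasAONT t s v → HasAONT t (s - 1) v) ∧
    -- the parameters of transforms with `t = 1`
    (∀ s v : ℕ, 1 ≤ s → 1 ≤ v →
      (HasAONT 1 s v ↔ s = 1 ∨ v = 1 ∨ (v ≠ 2 ∧ ¬ (s = 2 ∧ v = 6)))) ∧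
    -- for `t = 1` the deletion property fails only at `(s, v) = (3, 6)`
    (∀ s v : ℕ, 2 ≤ s → 1 ≤ v →
      ((HasAONT 1 s v → HasAONT 1 (s - 1) v) ↔ ¬ (s = 3 ∧ v = 6))) ∧
    -- for `t = s - 2` the deletion property fails only at `(s, v) = (3, 6)`
    (∀ s v : ℕ, 3 ≤ s → 1 ≤ v →
      ((HasAONT (s - 2) s v → HasAONT (s - 2) (s - 1) v) ↔ ¬ (s = 3 ∧ v = 6))) := by
  have cls : ∀ s v : ℕ, 1 ≤ s → 1 ≤ v →
      (HasAONT 1 s v ↔ s = 1 ∨ v = 1 ∨ (v ≠ 2 ∧ ¬ (s = 2 ∧ v = 6))) := by
    intro s v hs hv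
    by_cases h1 : s = 1
    · subst h1
      simp [hasAONT_self 1 v]
    by_cases h2 : v = 1
    · subst h2
      simp [hasAONT_unique 1 s]
    rw [hasAONT_one_iff (by omega) (by omega)]
    simp [h1, h2]
  have h36 : HasAONT 1 3 6 := (cls 3 6 (by norm_num) (by norm_num)).2 (by norm_num)
  have h26 : ¬ HasAONT 1 2 6 := by
    rw [cls 2 6 (by norm_num) (by norm_num)]
    norm_num
  refine ⟨⟨h36, h26⟩, ?_, cls, ?_, ?_⟩
  · intro h
    exact h26 (h 1 3 6 (by norm_num) le_rfl (by norm_num) h36)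
  · intro s v hs hv
    rw [cls s v (by omega) hv, cls (s - 1) v (by omega) hv]
    omega
  · intro s v hs hv
    have e1 : HasAONT (s - 2) (s - 1) v ↔ HasAONT 1 (s - 1) v := by
      rw [dual (show s - 2 ≤ s - 1 by omega)]
      rw [show s - 1 - (s - 2) = 1 by omega]
    rw [e1, cls (s - 1) v (by omega) hv]
    by_cases h3 : s = 3
    · subst h3
      rw [show 3 - 2 = 1 from rfl, cls 3 v (by omega) hv]
      omega
    · have e2 : HasAONT (s - 2) s v ↔ HasAONT 2 s v := by
        rw [dual (show s - 2 ≤ s by omega)]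
        rw [show s - (s - 2) = 2 by omega]
      rw [e2]
      by_cases hv2 : v = 2
      · subst hv2
        have := no_two (s := s) (by omega)
        simp [this]
      · constructor
        · intro _
          omega
        · intro _ _
          omega

end Pool.Agent.Results.MP_2d9e0f_co.DeletionFailsH53
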